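import Pool.Agent.U758.NN.Basic

/-!
# Poisson-de Rham homology differs from the cohomology of the symplectic resolution

Let `X = Spec O`, where `O = ℂ + (x, y) ^ 2 ⊆ ℂ[x, y]` is the Poisson subalgebra of all polynomials
whose two partial derivatives vanish at the origin.  The morphism `𝔸² → X` is a symplectic
resolution in the sense of the problem (proper, birational, Poisson, from a smooth symplectic
variety; `X` is not normal).  Then `HP_0^{DR}(X) = O / {O, O}` has dimension `1`, and
`H^{dim 𝔸² - 0}(𝔸²) = H²(𝔸²) = 0`.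
-/

set_option autoImplicit false

namespace Pool.Agent.Results.MP_fc9dee_ag.NonNormal

open Pool.Agent.TH212 Pool.Agent.U758.NN

/-- Let `O` be the algebra of all `f ∈ ℂ[x, y]` with `∂_x f (0) = ∂_y f (0) = 0`, with the
restriction `P` of the bracket `Q` of `ℂ[x, y]`, `{f, g} = ∂_y f ∂_x g - ∂_x f ∂_y g`. Then `O` is
a finitely generated domain, the morphism `𝔸² → X = Spec O` is a symplectic resolution,
`O / {O, O}` has dimension `1`, and the second algebraic de Rham cohomology of `𝔸²` (all `2`-forms
`h dx ∧ dy` modulo the exact ones, `h = ∂_x g - ∂_y f`) has dimension `0`. -/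
theorem result :
    ∃ (O : Subalgebra ℂ (MvPolynomial (Fin 2) ℂ)) (P : PoissonBracket O)
      (Q : PoissonBracket (MvPolynomial (Fin 2) ℂ)),
      (∀ f, f ∈ O ↔ ∀ i, MvPolynomial.constantCoeff (MvPolynomial.pderiv i f) = 0) ∧
      (∀ f g, Q.br f g = MvPolynomial.pderiv 1 f * MvPolynomial.pderiv 0 g -
        MvPolynomial.pderiv 0 f * MvPolynomial.pderiv 1 g) ∧
      IsDomain O ∧ Algebra.FiniteType ℂ O ∧ IsSymplecticResolution P Q O.val ∧
      Module.Finite ℂ P.HP0 ∧ Module.finrank ℂ P.HP0 = 1 ∧
      Module.Finite ℂ (MvPolynomial (Fin 2) ℂ ⧸ exact) ∧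
      Module.finrank ℂ (MvPolynomial (Fin 2) ℂ ⧸ exact) = 0 := by
  have hs : Subsingleton (MvPolynomial (Fin 2) ℂ ⧸ exact) := by
    rw [Submodule.Quotient.subsingleton_iff]
    exact exact_eq_top
  exact ⟨OX, PO, PR, fun _ => mem_OX, pb_apply, inferInstance, finiteType_OX, resolution,
    finite_HP0, finrank_HP0, inferInstance, Module.finrank_zero_of_subsingleton⟩

end Pool.Agent.Results.MP_fc9dee_ag.NonNormal
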